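import Pool.Agent.R191.Odo.Dim
import Pool.Agent.W765.KB

/-!
# Towers of rotations: invariant measures
-/

set_option autoImplicit false

open Set Filter Topology MeasureTheory Function Metric
open scoped ENNReal NNReal

namespace Pool.Agent.R191.Odo

lemma ae_eq_of_mono {X : Type*} [MeasurableSpace X] {ρ : Measure X} [IsProbabilityMeasure ρ] {T : X → X}
    (hT : MeasurePreserving T ρ ρ) {M : X → ℝ} (hM : Measurable M) {C : ℝ} (hb : ∀ x, |M x| ≤ C)
    (hle : ∀ x, M x ≤ M (T x)) : ∀ᵐ x ∂ρ, M (T x) = M x := by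
  have hi : Integrable M ρ := Integrable.of_bound hM.aestronglyMeasurable C (ae_of_all _ hb)
  have hi2 : Integrable (fun x => M (T x)) ρ := hT.integrable_comp_of_integrable hi
  have h0 : ∫ x, (M (T x) - M x) ∂ρ = 0 := by
    rw [integral_sub hi2 hi]
    have : ∫ x, M (T x) ∂ρ = ∫ x, M x ∂ρ := by
      have h1 := integral_map (μ := ρ) (φ := T) hT.measurable.aemeasurable (f := M)
        (by rw [hT.map_eq]; exact hM.aestronglyMeasurable)
      rw [hT.map_eq] at h1
      exact h1.symm
    rw [this, sub_self]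
  have h1 := (integral_eq_zero_iff_of_nonneg_ae (ae_of_all _ fun x => sub_nonneg.2 (hle x))
    (hi2.sub hi)).1 h0
  filter_upwards [h1] with x hx
  have : M (T x) - M x = 0 := hx
  linarith

/-- An ergodic probability measure for which almost every point is periodic has finite support. -/
lemma exists_finite {X : Type*} [MetricSpace X] [SecondCountableTopology X] [MeasurableSpace X]
    [BorelSpace X] {f : X → X} (hf : Continuous f) (hinj : Injective f) (ν : Measure X)
    [IsProbabilityMeasure ν] (he : Ergodic f ν) (hper : ∀ᵐ z ∂ν, ∃ p, 0 < p ∧ f^[p] z = z) :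
    ∃ Z : Set X, Z.Finite ∧ ν Z = 1 := by
  have hmeas : ∀ p, MeasurableSet {z | f^[p] z = z} := fun p =>
    (isClosed_eq (hf.iterate p) continuous_id).measurableSet
  obtain ⟨p, hp, hpos⟩ : ∃ p, 0 < p ∧ ν {z | f^[p] z = z} ≠ 0 := by
    by_contra hcon
    push Not at hcon
    have h1 : ν (⋃ p : {p : ℕ // 0 < p}, {z | f^[p] z = z}) = 0 :=
      measure_iUnion_null fun p => hcon p p.2
    have h2 : ∀ᵐ z ∂ν, z ∉ ⋃ p : {p : ℕ // 0 < p}, {z | f^[p] z = z} :=
      measure_eq_zero_iff_ae_notMem.1 h1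
    have h3 : ∀ᵐ z ∂ν, False := by
      filter_upwards [hper, h2] with z ⟨p, hp, hz⟩ hz2
      exact hz2 (mem_iUnion.2 ⟨⟨p, hp⟩, hz⟩)
    rw [ae_iff] at h3
    simp at h3
  set P := {z | f^[p] z = z} with hP
  have hcomm : ∀ z, f^[p] (f z) = f (f^[p] z) := fun z => by
    rw [← iterate_succ_apply, iterate_succ_apply']
  have hPinv : ∀ z, f z ∈ P ↔ z ∈ P := by
    intro z
    show f^[p] (f z) = f z ↔ f^[p] z = z
    rw [hcomm]
    exact hinj.eq_iff
  have hfP : ∀ {z}, z ∈ P → ∀ i, f^[i] z ∈ P := by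
    intro z hz i
    induction i with
    | zero => exact hz
    | succ i ih => rw [iterate_succ_apply']; exact (hPinv _).2 ih
  have hP1 : ν Pᶜ = 0 := by
    rcases he.toPreErgodic.measure_self_or_compl_eq_zero (hmeas p) (by ext z; exact hPinv z) with h | h
    · exact absurd h hpos
    · exact h
  obtain ⟨x, hxP, hx⟩ := exists_mem_forall_mem_nhdsWithin_pos_measure hpos
  set W : ℝ → Set X := fun ε => P ∩ {z | ∃ i, f^[i] z ∈ ball x ε} with hW
  have hWmeas : ∀ ε, MeasurableSet (W ε) := by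
    intro ε
    refine (hmeas p).inter ?_
    have : {z | ∃ i, f^[i] z ∈ ball x ε} = ⋃ i, f^[i] ⁻¹' ball x ε := by ext z; simp
    rw [this]
    exact (isOpen_iUnion fun i => isOpen_ball.preimage (hf.iterate i)).measurableSet
  have hWinv : ∀ ε, f ⁻¹' W ε = W ε := by
    intro ε
    ext z
    constructor
    · rintro ⟨h1, i, hi⟩
      exact ⟨(hPinv z).1 h1, i + 1, by rwa [iterate_succ_apply]⟩
    · rintro ⟨h1, i, hi⟩
      refine ⟨(hPinv z).2 h1, ?_⟩
      rcases i with _ | i
      · refine ⟨p - 1, ?_⟩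
        rw [← iterate_succ_apply, show (p - 1).succ = p by omega]
        rw [show f^[p] z = z from h1]
        exact hi
      · exact ⟨i, by rwa [iterate_succ_apply] at hi⟩
  have hW1 : ∀ ε, 0 < ε → ν (W ε)ᶜ = 0 := by
    intro ε hε
    rcases he.toPreErgodic.measure_self_or_compl_eq_zero (hWmeas ε) (hWinv ε) with h | h
    · exfalso
      have h2 := hx (P ∩ ball x ε) (inter_mem self_mem_nhdsWithin
        (mem_nhdsWithin_of_mem_nhds (ball_mem_nhds x hε)))
      have h3 : P ∩ ball x ε ⊆ W ε := fun z hz => ⟨hz.1, 0, hz.2⟩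
      exact absurd (measure_mono_null h3 h) h2.ne'
    · exact h
  refine ⟨(fun l => f^[l] x) '' (Iic p), (finite_Iic p).image _, ?_⟩
  have hae : ∀ᵐ z ∂ν, z ∈ P ∧ ∀ m : ℕ, z ∈ W (1 / ((m : ℝ) + 1)) := by
    refine Filter.Eventually.and ?_ (ae_all_iff.2 fun m => ?_)
    · rw [ae_iff]; exact hP1
    · rw [ae_iff]; exact hW1 _ (by positivity)
  have hae2 : ∀ᵐ z ∂ν, z ∈ (fun l => f^[l] x) '' (Iic p) := by
    filter_upwards [hae] with z ⟨hzP, hz⟩
    have hmod : ∀ i, f^[i] z = f^[i % p] z := by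
      intro i
      conv_lhs => rw [← Nat.mod_add_div i p, iterate_add_apply, iterate_mul]
      congr 1
      exact iterate_fixed (show f^[p] z = z from hzP) _
    obtain ⟨i0, hi0, hmin⟩ := Finset.exists_min_image (Finset.range p) (fun i => dist (f^[i] z) x)
      ⟨0, Finset.mem_range.2 hp⟩
    have hd : dist (f^[i0] z) x = 0 := by
      apply le_antisymm _ dist_nonneg
      apply le_of_forall_pos_le_add
      intro ε hε
      obtain ⟨m, hm⟩ := exists_nat_one_div_lt hε
      obtain ⟨_, i, hi⟩ := hz m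
      rw [hmod i] at hi
      have h1 := hmin (i % p) (Finset.mem_range.2 (Nat.mod_lt _ hp))
      have h2 : dist (f^[i % p] z) x < 1 / ((m : ℝ) + 1) := hi
      linarith
    have hd' : f^[i0] z = x := dist_eq_zero.1 hd
    refine ⟨p - i0, mem_Iic.2 (Nat.sub_le _ _), ?_⟩
    show f^[p - i0] x = z
    rw [← hd', ← iterate_add_apply, Nat.sub_add_cancel (Finset.mem_range.1 hi0).le]
    exact hzP
  have := (finite_Iic p).image (fun l => f^[l] x)
  rw [← prob_compl_eq_zero_iff this.measurableSet]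
  rw [ae_iff] at hae2
  exact hae2

namespace Tower

variable {f : ℂ → ℂ} (T : Tower f)

/-- There is an invariant probability measure on the Cantor set. -/
lemma exists_measure (hf : Continuous f) : ∃ ν : Measure ℂ, IsProbabilityMeasure ν ∧
    MeasurePreserving f ν ν ∧ ν (T.K)ᶜ = 0 := by
  have : CompactSpace T.K := isCompact_iff_compactSpace.1 (T.K_compact hf)
  set fK : T.K → T.K := fun x => ⟨f x, T.f_mem_K.2 x.2⟩ with hfK
  have hfKc : Continuous fK := (hf.comp continuous_subtype_val).subtype_mk _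
  obtain ⟨x, hx⟩ := T.K_nonempty
  obtain ⟨P, hP, hPf, -⟩ := Pool.Agent.W765.KB.kb hfKc (⟨x, hx⟩ : T.K) (fun _ => 0) (fun L => L + 1)
    (tendsto_add_atTop_nat 1) (fun L => Nat.succ_pos L)
  refine ⟨P.map Subtype.val, Measure.isProbabilityMeasure_map measurable_subtype_coe.aemeasurable,
    ⟨hf.measurable, ?_⟩, ?_⟩
  · rw [Measure.map_map hf.measurable measurable_subtype_coe]
    have : f ∘ Subtype.val = Subtype.val ∘ fK := rfl
    rw [this, ← Measure.map_map measurable_subtype_coe hfKc.measurable, hPf.map_eq]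
  · rw [Measure.map_apply measurable_subtype_coe (T.K_closed hf).measurableSet.compl]
    have : (Subtype.val ⁻¹' (T.K)ᶜ : Set T.K) = ∅ := by
      ext z; simp
    rw [this, measure_empty]

lemma iterate_preimage {A : Set ℂ} (hA : f ⁻¹' A = A) (i : ℕ) : f^[i] ⁻¹' A = A := by
  induction i with
  | zero => rfl
  | succ i ih => rw [iterate_succ, preimage_comp, ih, hA]

lemma meas_inter_D (ν : Measure ℂ) (_hf : Continuous f) (hν : MeasurePreserving f ν ν)
    {A : Set ℂ} (hA : MeasurableSet A) (hAf : f ⁻¹' A = A) (n i : ℕ) :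
    ν (A ∩ T.D n i) = ν (A ∩ T.B n) := by
  have : A ∩ T.D n i = f^[i] ⁻¹' (A ∩ T.B n) := by
    rw [preimage_inter, iterate_preimage hAf]; rfl
  rw [this]
  exact (hν.iterate i).measure_preimage ((hA.inter isClosed_closedBall.measurableSet).nullMeasurableSet)

lemma meas_inter_E (ν : Measure ℂ) (hf : Continuous f) (hν : MeasurePreserving f ν ν)
    {A : Set ℂ} (hA : MeasurableSet A) (hAf : f ⁻¹' A = A) (n : ℕ) :
    ν (A ∩ T.E n) = T.N n * ν (A ∩ T.B n) := by
  rw [T.E_eq, inter_iUnion₂, measure_biUnion_finset]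
  · rw [Finset.sum_congr rfl fun i _ => T.meas_inter_D ν hf hν hA hAf n i]
    simp
  · intro i hi i' hi' hne
    exact (T.D_disjoint (Finset.mem_range.1 (Finset.mem_coe.1 hi))
      (Finset.mem_range.1 (Finset.mem_coe.1 hi')) hne).mono inter_subset_right inter_subset_right
  · exact fun i _ => hA.inter (T.D_meas hf n i)

lemma meas_inter_D' (ν : Measure ℂ) [IsProbabilityMeasure ν] (hf : Continuous f)
    (hν : MeasurePreserving f ν ν) (hK : ν (T.K)ᶜ = 0)
    {A : Set ℂ} (hA : MeasurableSet A) (hAf : f ⁻¹' A = A) (n i : ℕ) :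
    ν (A ∩ T.D n i) = ν A * ν (T.D n i) := by
  have h1 := T.meas_inter_E ν hf hν hA hAf n
  have hEc : ν (T.E n)ᶜ = 0 := measure_mono_null (compl_subset_compl.2 (iInter_subset _ n)) hK
  have hE : ν (A ∩ T.E n) = ν A := measure_inter_conull hEc
  rw [hE] at h1
  rw [T.meas_inter_D ν hf hν hA hAf, T.meas_D ν hf hν, T.meas_B ν hf hν hK, h1]
  have hN : (T.N n : ℝ≥0∞) ≠ 0 := by exact_mod_cast (T.N_pos n).ne'
  rw [mul_comm, ← mul_assoc, ENNReal.inv_mul_cancel hN (ENNReal.natCast_ne_top _), one_mul]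

lemma exists_small (hr0 : Tendsto T.r atTop (𝓝 0)) {U : Set ℂ} (hU : IsOpen U) {z : ℂ}
    (hzK : z ∈ T.K) (hz : z ∈ U) : ∃ n, ∃ i < T.N n, z ∈ T.D n i ∧ T.D n i ⊆ U := by
  obtain ⟨ε, hε, hball⟩ := Metric.isOpen_iff.1 hU z hz
  obtain ⟨n, hn⟩ := (hr0.eventually (gt_mem_nhds (show (0 : ℝ) < ε / 2 by linarith))).exists
  have h1 := mem_iInter.1 hzK n
  rw [T.E_eq] at h1
  simp only [mem_iUnion, Finset.mem_range, exists_prop] at h1
  obtain ⟨i, hi, hzi⟩ := h1
  refine ⟨n, i, hi, hzi, fun w hw => hball ?_⟩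
  rw [T.D_eq hi] at hzi hw
  obtain ⟨x, hx, rfl⟩ := hzi
  obtain ⟨y, hy, rfl⟩ := hw
  rw [mem_ball, T.J_iso]
  have hx' : dist x (T.c n) ≤ T.r n := hx
  have hy' : dist y (T.c n) ≤ T.r n := hy
  have := dist_triangle_right y x (T.c n)
  linarith

/-- An invariant probability measure carried by the Cantor set is ergodic. -/
lemma ergodic (hr0 : Tendsto T.r atTop (𝓝 0)) (ν : Measure ℂ) [IsProbabilityMeasure ν]
    (hf : Continuous f) (hν : MeasurePreserving f ν ν) (hK : ν (T.K)ᶜ = 0) : Ergodic f ν := by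
  refine ⟨hν, ⟨fun {A} hA hAf => ?_⟩⟩
  have hopen : ∀ U : Set ℂ, IsOpen U → ν.restrict A U = (ν A • ν) U := by
    intro U hU
    set S : ℕ → Set ℕ := fun n => {i | i < T.N n ∧ T.D n i ⊆ U} with hS
    set V : ℕ → Set ℂ := fun n => (⋃ i ∈ S n, T.D n i) ∩ T.K with hV
    have hmono : Monotone V := by
      apply monotone_nat_of_le_succ
      rintro n z ⟨hz, hzK⟩
      simp only [mem_iUnion, exists_prop] at hz
      obtain ⟨i, ⟨hi, hiU⟩, hzi⟩ := hz
      refine ⟨?_, hzK⟩
      have h1 := mem_iInter.1 hzK (n + 1)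
      rw [T.E_eq] at h1
      simp only [mem_iUnion, Finset.mem_range, exists_prop] at h1 ⊢
      obtain ⟨i', hi', hzi'⟩ := h1
      refine ⟨i', ⟨hi', ?_⟩, hzi'⟩
      have h2 := T.D_mod hzi'
      have h3 : i = i' % T.N n := by
        by_contra hne
        exact Set.disjoint_left.1 (T.D_disjoint hi (Nat.mod_lt _ (T.N_pos n)) hne) hzi h2
      rw [h3] at hiU
      exact T.D_mod.trans hiU
    have hunion : ⋃ n, V n = U ∩ T.K := by
      ext z
      simp only [hV, hS, mem_iUnion, mem_inter_iff, exists_prop, mem_ofPred_eq]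
      constructor
      · rintro ⟨n, ⟨i, ⟨hi, hiU⟩, hz⟩, hzK⟩
        exact ⟨hiU hz, hzK⟩
      · rintro ⟨hz, hzK⟩
        obtain ⟨n, i, hi, h1, h2⟩ := T.exists_small hr0 hU hzK hz
        exact ⟨n, ⟨i, ⟨hi, h2⟩, h1⟩, hzK⟩
    have hKm : MeasurableSet T.K := (T.K_closed hf).measurableSet
    have hfin : ∀ n, (S n).Finite := fun n => (finite_lt_nat (T.N n)).subset fun i hi => hi.1
    have hval : ∀ n, ν (A ∩ ⋃ i ∈ S n, T.D n i) = ν A * ν (⋃ i ∈ S n, T.D n i) := by
      intro n
      have hd : (S n).PairwiseDisjoint (T.D n) := fun i hi i' hi' hne => T.D_disjoint hi.1 hi'.1 hne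
      rw [inter_iUnion₂, measure_biUnion (hfin n).countable, measure_biUnion (hfin n).countable hd,
        ← ENNReal.tsum_mul_left]
      · exact tsum_congr fun i => T.meas_inter_D' ν hf hν hK hA hAf n i
      · exact fun i _ => T.D_meas hf n i
      · exact fun i hi i' hi' hne => (hd hi hi' hne).mono inter_subset_right inter_subset_right
      · exact fun i _ => hA.inter (T.D_meas hf n i)
    have hUm := hU.measurableSet
    rw [Measure.restrict_apply hUm, Measure.smul_apply, smul_eq_mul, inter_comm]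
    rw [← measure_inter_conull (s := A ∩ U) hK, ← measure_inter_conull (s := U) hK]
    rw [inter_assoc, ← hunion, inter_iUnion]
    have hmono2 : Monotone fun n => A ∩ V n := fun a b hab => inter_subset_inter_right A (hmono hab)
    rw [hmono.measure_iUnion, hmono2.measure_iUnion, ENNReal.mul_iSup]
    congr 1
    ext n
    simp only [hV]
    rw [← inter_assoc, measure_inter_conull hK, measure_inter_conull hK, hval]
  have heq : ν.restrict A = ν A • ν := by
    have hfinm : IsFiniteMeasure (ν A • ν) := ⟨by simp⟩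
    refine ext_of_generate_finite {U : Set ℂ | IsOpen U} ?_ isPiSystem_isOpen hopen (hopen _ isOpen_univ)
    exact BorelSpace.measurable_eq
  have h1 : ν.restrict A A = (ν A • ν) A := by rw [heq]
  rw [Measure.restrict_apply_self, Measure.smul_apply, smul_eq_mul] at h1
  have h2 : ν A = 0 ∨ ν A = 1 := by
    by_cases h0 : ν A = 0
    · exact Or.inl h0
    · right
      have h3 : ν A * 1 = ν A * ν A := by rw [mul_one]; exact h1
      exact ((ENNReal.mul_right_inj h0 (measure_ne_top ν A)).1 h3).symm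
  rcases h2 with h2 | h2
  · rw [eventuallyConst_set']
    left
    exact ae_eq_empty.2 h2
  · rw [eventuallyConst_set']
    right
    rw [ae_eq_univ]
    rwa [prob_compl_eq_zero_iff hA]

/-- The transition zone of level `n`. -/
def Zo (n : ℕ) : Set ℂ := {z | T.r n ^ 2 / 2 < ‖z - T.c n‖ ^ 2 ∧ ‖z - T.c n‖ < T.r n}

lemma g_Zo {n : ℕ} {z : ℂ} (hz : z ∈ T.Zo n) : ‖T.g n z - T.c n‖ < ‖z - T.c n‖ := by
  obtain ⟨h1, h2⟩ := hz
  have hr := T.r_pos n
  have h0 := norm_nonneg (z - T.c n)
  have hpos : 0 < ‖z - T.c n‖ := by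
    rcases h0.eq_or_lt with h | h
    · exfalso
      rw [← h] at h1
      have : 0 < T.r n ^ 2 / 2 := by positivity
      linarith [this, h1]
    · exact h
  have hnB : z ∉ T.B (n + 1) := fun h => by
    have : ‖z - T.c n‖ ^ 2 ≤ T.r n ^ 2 / 2 := T.B_sub_In n h
    linarith
  rw [T.step, T.g_not_B hnB]
  set b := bet (‖z - T.c n‖ ^ 2 / T.r n ^ 2) with hb
  have hb0 : 0 < b := bet_pos (by
    rw [div_lt_one (by positivity)]
    nlinarith)
  have hb1 : b < 1 := bet_lt (by
    rw [lt_div_iff₀ (by positivity)]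
    linarith)
  have e : z + (om (T.k n) - 1) * (b : ℂ) * (z - T.c n) + om (T.k n) * (z - z) - T.c n =
      (((1 - b : ℝ) : ℂ) * 1 + (b : ℝ) * om (T.k n)) * (z - T.c n) := by
    push_cast; ring
  rw [e, norm_mul]
  have hstrict : ‖((1 - b : ℝ) : ℂ) * 1 + (b : ℝ) * om (T.k n)‖ < 1 := by
    have h1 : ‖(1 : ℂ)‖ ≤ 1 := by simp
    have h2 : ‖om (T.k n)‖ ≤ 1 := (norm_om _).le
    have hne : (1 : ℂ) ≠ om (T.k n) := by
      intro h
      have := le_norm_om_pow_sub_one' (k := T.k n) (a := 1) le_rfl (by have := T.two_le n; omega)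
      rw [pow_one, ← h, sub_self, norm_zero] at this
      have hk := T.k_pos' n
      have : 0 < 4 / (T.k n : ℝ) := by positivity
      linarith
    have := norm_combo_lt_of_ne h1 h2 hne (show 0 < 1 - b by linarith) hb0 (by ring)
    simpa using this
  nlinarith

/-- The transition zones carry no invariant mass. -/
lemma meas_Zo (ν : Measure ℂ) [IsProbabilityMeasure ν]
    (hν : MeasurePreserving f ν ν) (n : ℕ) : ∀ᵐ z ∂ν, z ∉ T.Zo n := by
  classical
  have hr := T.r_pos n
  set M : ℂ → ℝ := fun z => if z ∈ T.B n then -max (‖z - T.c n‖ ^ 2) (T.r n ^ 2 / 2) else 0 with hM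
  have hMm : Measurable M := by
    apply Measurable.ite isClosed_closedBall.measurableSet
    · exact (Measurable.max (by fun_prop) measurable_const).neg
    · exact measurable_const
  have hMb : ∀ z, |M z| ≤ T.r n ^ 2 := by
    intro z
    simp only [hM]
    split_ifs with h
    · have h1 := T.mem_B.1 h
      have h0 := norm_nonneg (z - T.c n)
      rw [abs_neg, abs_of_nonneg (le_max_of_le_left (by positivity))]
      apply max_le
      · nlinarith
      · nlinarith
    · rw [abs_zero]; positivity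
  have hle : ∀ z, M z ≤ M (f^[T.N n] z) := by
    intro z
    by_cases h : z ∈ T.B n
    · have h2 : f^[T.N n] z ∈ T.B n := T.f_iter_mem_iff.2 h
      simp only [hM, if_pos h, if_pos h2, neg_le_neg_iff]
      rw [T.f_iter n z h]
      apply max_le _ (le_max_right _ _)
      by_cases hIn : z ∈ T.In n
      · exact le_max_of_le_right (T.g_In hIn)
      · apply le_max_of_le_left
        by_cases hlt : ‖z - T.c n‖ < T.r n
        · have hz : z ∈ T.Zo n := ⟨not_le.1 hIn, hlt⟩
          have := T.g_Zo hz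
          have h0 := norm_nonneg (T.g n z - T.c n)
          nlinarith
        · rw [T.g_out n z (not_lt.1 hlt)]
    · have h2 : f^[T.N n] z ∉ T.B n := fun h' => h (T.f_iter_mem_iff.1 h')
      simp only [hM, if_neg h, if_neg h2]
      exact le_rfl
  have hae := ae_eq_of_mono (hν.iterate (T.N n)) hMm hMb hle
  filter_upwards [hae] with z hz hZ
  have hzB : z ∈ T.B n := T.mem_B.2 hZ.2.le
  have h2 : f^[T.N n] z ∈ T.B n := T.f_iter_mem_iff.2 hzB
  simp only [hM, if_pos hzB, if_pos h2, neg_inj] at hz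
  rw [T.f_iter n z hzB] at hz
  have h3 := T.g_Zo hZ
  have h0 := norm_nonneg (T.g n z - T.c n)
  rw [max_eq_left hZ.1.le] at hz
  have : max (‖T.g n z - T.c n‖ ^ 2) (T.r n ^ 2 / 2) < ‖z - T.c n‖ ^ 2 := by
    apply max_lt _ hZ.1
    nlinarith
  linarith

/-- Away from the transition zones and the Cantor set, all points are periodic. -/
lemma periodic {z : ℂ} (hz : z ∈ T.B 0) (hzo : ∀ n i, f^[i] z ∉ T.Zo n) (hK : z ∉ T.K) :
    ∃ p, 0 < p ∧ f^[p] z = z := by
  classical
  have hex : ∃ n, z ∉ T.E n := by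
    by_contra hcon
    push Not at hcon
    exact hK (mem_iInter.2 hcon)
  obtain ⟨n, hn, hn1⟩ : ∃ n, z ∈ T.E n ∧ z ∉ T.E (n + 1) := by
    have hs := Nat.find_spec hex
    have hm := fun m (h : m < Nat.find hex) => Nat.find_min hex h
    rcases h : Nat.find hex with _ | n
    · rw [h] at hs
      rw [T.E_zero] at hs
      exact absurd hz hs
    · rw [h] at hs
      exact ⟨n, not_not.1 (hm n (by omega)), hs⟩
  obtain ⟨i, hi⟩ := hn
  set y := f^[i] z with hy
  have hback : ∀ l, f^[l] z ∉ T.E (n + 1) := by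
    intro l
    induction l with
    | zero => exact hn1
    | succ l ih => rw [iterate_succ_apply', T.f_mem_E]; exact ih
  have hE : ∀ l, f^[l] y ∉ T.B (n + 1) := by
    intro l hl
    apply hback (l + i)
    rw [iterate_add_apply]
    exact ⟨0, hl⟩
  have hgB : ∀ m, (T.g n)^[m] y ∉ T.B (n + 1) := by
    intro m
    rw [← T.f_iter_mul hi]
    exact hE _
  obtain ⟨p, hp, hpy⟩ : ∃ p, 0 < p ∧ f^[p] y = y := by
    by_cases hIn : y ∈ T.In n
    · refine ⟨T.N n * T.k n, Nat.mul_pos (T.N_pos n) (T.k_pos n), ?_⟩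
      rw [T.f_iter_mul hi]
      have : ∀ m, (T.g n)^[m] y = rt (T.c n) (om (T.k n) ^ m) y := by
        intro m
        induction m with
        | zero => rw [pow_zero, rt_one]; rfl
        | succ m ih =>
          have h1 := hgB m
          rw [iterate_succ_apply', ih]
          rw [ih] at h1
          rw [T.g_rot _ h1, rt_rt, pow_succ']
          rw [T.rt_In (by rw [norm_pow, norm_om, one_pow])]
          exact hIn
      rw [this, om_pow_self (T.k_pos n).ne', rt_one]
    · have hge : T.r n ≤ ‖y - T.c n‖ := by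
        by_contra hlt
        exact hzo n i ⟨not_le.1 hIn, not_le.1 hlt⟩
      exact ⟨T.N n, T.N_pos n, by rw [T.f_iter n y hi, T.g_out n y hge]⟩
  refine ⟨p, hp, T.f_inj.iterate i ?_⟩
  rw [← iterate_add_apply, add_comm, iterate_add_apply]
  exact hpy

end Tower

/-- An ergodic measure of a map made of towers in disjoint discs is carried by one of the Cantor sets
or by a finite set. -/
lemma ergodic_cases {f : ℂ → ℂ} (hf : Continuous f) (T : ℕ → Tower f)
    (hout : ∀ z, (∀ j, z ∉ (T j).B 0) → f z = z) (ν : Measure ℂ) [IsProbabilityMeasure ν]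
    (he : Ergodic f ν) : (∃ j, ν (T j).K = 1) ∨ ∃ Z : Set ℂ, Z.Finite ∧ ν Z = 1 := by
  by_cases h : ∃ j, ν (T j).K ≠ 0
  · left
    obtain ⟨j, hj⟩ := h
    refine ⟨j, ?_⟩
    rcases he.toPreErgodic.measure_self_or_compl_eq_zero ((T j).K_closed hf).measurableSet
      (by ext z; exact (T j).f_mem_K) with h1 | h1
    · exact absurd h1 hj
    · rwa [prob_compl_eq_zero_iff ((T j).K_closed hf).measurableSet] at h1
  · right
    push Not at h
    apply exists_finite hf (T 0).f_inj ν he
    have h1 : ∀ᵐ z ∂ν, ∀ j, z ∉ (T j).K := ae_all_iff.2 fun j => measure_eq_zero_iff_ae_notMem.1 (h j)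
    have h2 : ∀ᵐ z ∂ν, ∀ j n i, f^[i] z ∉ (T j).Zo n := by
      refine ae_all_iff.2 fun j => ae_all_iff.2 fun n => ae_all_iff.2 fun i => ?_
      exact (he.toMeasurePreserving.iterate i).quasiMeasurePreserving.ae
        ((T j).meas_Zo ν he.toMeasurePreserving n)
    filter_upwards [h1, h2] with z hz1 hz2
    by_cases hz : ∃ j, z ∈ (T j).B 0
    · obtain ⟨j, hj⟩ := hz
      exact (T j).periodic hj (hz2 j) (hz1 j)
    · push Not at hz
      exact ⟨1, one_pos, hout z hz⟩

end Pool.Agent.R191.Odo
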