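import Pool.Agent.R191.Odo.Tower

/-!
# Towers of rotations: counting discs, invariant measures and dimension
-/

set_option autoImplicit false

open Set Filter Topology MeasureTheory Function Metric
open scoped ENNReal NNReal

namespace Pool.Agent.R191.Odo

lemma card_le_of_diff {S : Finset ℕ} {q : ℕ} (h : ∀ a ∈ S, ∀ b ∈ S, a ≤ b → b ≤ a + q) :
    S.card ≤ q + 1 := by
  rcases S.eq_empty_or_nonempty with rfl | hne
  · simp
  · set a := S.min' hne
    have ha : a ∈ S := S.min'_mem hne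
    have : S ⊆ Finset.Icc a (a + q) := fun b hb => by
      have h1 : a ≤ b := S.min'_le b hb
      rw [Finset.mem_Icc]
      exact ⟨h1, h a ha b hb h1⟩
    refine (Finset.card_le_card this).trans ?_
    rw [Nat.card_Icc]
    omega

namespace Tower

variable {f : ℂ → ℂ} (T : Tower f)

open Classical in
/-- Indices of the discs of level `n` that meet `U`. -/
noncomputable def A (U : Set ℂ) (n : ℕ) : Finset ℕ :=
  (Finset.range (T.N n)).filter fun i => (T.D n i ∩ U).Nonempty

lemma mem_A {U : Set ℂ} {n i : ℕ} : i ∈ T.A U n ↔ i < T.N n ∧ (T.D n i ∩ U).Nonempty := by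
  classical
  unfold A
  rw [Finset.mem_filter, Finset.mem_range]

lemma D_mod {n i : ℕ} : T.D (n + 1) i ⊆ T.D n (i % T.N n) := by
  intro z hz
  have hz' : f^[i] z ∈ T.B n := T.B_sub n hz
  show f^[i % T.N n] z ∈ T.B n
  have key : ∀ m, ∀ w, f^[T.N n * m] w ∈ T.B n → w ∈ T.B n := by
    intro m
    induction m with
    | zero => intro w hw; exact hw
    | succ m ih =>
      intro w hw
      rw [Nat.mul_succ, iterate_add_apply] at hw
      exact T.f_iter_mem_iff.1 (ih _ hw)
  apply key (i / T.N n)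
  rw [← iterate_add_apply, Nat.div_add_mod]
  exact hz'

lemma diff_le {n : ℕ} {U : Set ℂ} {d : ℝ} (hU : ∀ x ∈ U, ∀ y ∈ U, dist x y ≤ d)
    {i i' : ℕ} (hi : i ∈ T.A U (n + 1)) (hi' : i' ∈ T.A U (n + 1))
    (he : i % T.N n = i' % T.N n) (hle : i / T.N n ≤ i' / T.N n)
    (h2 : 2 * (i' / T.N n - i / T.N n) ≤ T.k n) :
    ((i' / T.N n : ℕ) : ℝ) - (i / T.N n : ℕ) ≤ (d + 2 * T.r (n + 1)) * T.k n / (2 * T.r n) := by
  obtain ⟨hi1, x, hx, hxU⟩ := T.mem_A.1 hi
  obtain ⟨hi1', x', hx', hxU'⟩ := T.mem_A.1 hi'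
  rw [T.D_eq hi1] at hx
  rw [T.D_eq hi1'] at hx'
  obtain ⟨w, hw, rfl⟩ := hx
  obtain ⟨w', hw', rfl⟩ := hx'
  have h := hU _ hxU _ hxU'
  have hJ : T.J (n + 1) i' w' =
    T.J n (i % T.N n) (rt (T.c n) ((om (T.k n))⁻¹ ^ (i' / T.N n)) w') := by rw [he]; rfl
  rw [hJ, show T.J (n + 1) i w =
    T.J n (i % T.N n) (rt (T.c n) ((om (T.k n))⁻¹ ^ (i / T.N n)) w) from rfl, T.J_iso] at h
  set m := i / T.N n
  set m' := i' / T.N n
  set a := (om (T.k n))⁻¹ ^ m with ha
  set a' := (om (T.k n))⁻¹ ^ m' with ha'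
  have na : ‖a‖ = 1 := norm_om_inv_pow _ _
  have na' : ‖a'‖ = 1 := norm_om_inv_pow _ _
  rw [dist_eq_norm] at h
  rw [T.mem_B] at hw hw'
  have e : (a - a') * (T.c (n + 1) - T.c n) = (rt (T.c n) a w - rt (T.c n) a' w') -
    (a * (w - T.c (n + 1)) - a' * (w' - T.c (n + 1))) := by unfold rt; ring
  have h3 : ‖(a - a') * (T.c (n + 1) - T.c n)‖ ≤ d + 2 * T.r (n + 1) := by
    rw [e]
    refine (norm_sub_le _ _).trans ?_
    have : ‖a * (w - T.c (n + 1)) - a' * (w' - T.c (n + 1))‖ ≤ 2 * T.r (n + 1) := by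
      refine (norm_sub_le _ _).trans ?_
      rw [norm_mul, norm_mul, na, na']
      linarith
    linarith
  rw [norm_mul, T.norm_c_sub] at h3
  have h4 := om_inv_pow_dist (T.k_pos n) hle h2
  rw [← ha, ← ha'] at h4
  have hr := T.r_pos n
  have hk := T.k_pos' n
  have h5 : 4 * ((m' : ℝ) - m) / T.k n * (T.r n / 2) ≤ d + 2 * T.r (n + 1) :=
    (mul_le_mul_of_nonneg_right h4 (by positivity)).trans h3
  rw [le_div_iff₀ (by positivity)]
  rw [div_mul_eq_mul_div, div_le_iff₀ hk] at h5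
  linarith

lemma card_A_succ {n q : ℕ} {U : Set ℂ} {d : ℝ} (hU : ∀ x ∈ U, ∀ y ∈ U, dist x y ≤ d)
    (hq : (d + 2 * T.r (n + 1)) * T.k n / (2 * T.r n) < q + 1) :
    (T.A U (n + 1)).card ≤ 2 * (q + 1) * (T.A U n).card := by
  classical
  apply Finset.card_le_mul_card_image_of_maps_to (f := fun i => i % T.N n)
  · intro i hi
    obtain ⟨hi1, x, hx, hxU⟩ := T.mem_A.1 hi
    exact T.mem_A.2 ⟨Nat.mod_lt _ (T.N_pos n), x, T.D_mod hx, hxU⟩
  · intro i0 _
    set S := (T.A U (n + 1)).filter fun i => i % T.N n = i0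
    have hSi : ∀ i ∈ S, i ∈ T.A U (n + 1) ∧ i % T.N n = i0 := fun i hi => Finset.mem_filter.1 hi
    have hlt : ∀ i ∈ S, i / T.N n < T.k n := fun i hi => by
      have := (T.mem_A.1 (hSi i hi).1).1
      rw [N_succ] at this
      exact Nat.div_lt_of_lt_mul this
    have hinj : Set.InjOn (fun i => i / T.N n) (S : Set ℕ) := by
      intro i hi i' hi' h
      have h1 := Nat.div_add_mod i (T.N n)
      have h2 := Nat.div_add_mod i' (T.N n)
      have h3 : i / T.N n = i' / T.N n := h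
      rw [(hSi i hi).2] at h1
      rw [(hSi i' hi').2, ← h3] at h2
      omega
    have hcard : S.card = (S.image fun i => i / T.N n).card := (Finset.card_image_of_injOn hinj).symm
    rw [hcard]
    set P := S.image fun i => i / T.N n
    have hP : ∀ m ∈ P, ∃ i ∈ S, i / T.N n = m := fun m hm => Finset.mem_image.1 hm
    have hdiff : ∀ m ∈ P, ∀ m' ∈ P, m ≤ m' → 2 * (m' - m) ≤ T.k n → m' ≤ m + q := by
      intro m hm m' hm' hle h2
      obtain ⟨i, hi, rfl⟩ := hP m hm
      obtain ⟨i', hi', rfl⟩ := hP m' hm'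
      have := T.diff_le hU (hSi i hi).1 (hSi i' hi').1 ((hSi i hi).2.trans (hSi i' hi').2.symm) hle h2
      have h3 : ((i' / T.N n : ℕ) : ℝ) < (i / T.N n : ℕ) + q + 1 := by linarith
      have h4 : i' / T.N n < i / T.N n + q + 1 := by exact_mod_cast h3
      omega
    have hsplit := Finset.card_filter_add_card_filter_not (s := P) (fun m => 2 * m < T.k n)
    have hA1 : (P.filter fun m => 2 * m < T.k n).card ≤ q + 1 := by
      apply card_le_of_diff
      intro a ha b hb hab
      rw [Finset.mem_filter] at ha hb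
      exact hdiff a ha.1 b hb.1 hab (by omega)
    have hA2 : (P.filter fun m => ¬ 2 * m < T.k n).card ≤ q + 1 := by
      apply card_le_of_diff
      intro a ha b hb hab
      rw [Finset.mem_filter] at ha hb
      have : b < T.k n := by
        obtain ⟨i, hi, rfl⟩ := hP b hb.1
        exact hlt i hi
      exact hdiff a ha.1 b hb.1 hab (by omega)
    omega

lemma card_A_le {U : Set ℂ} {d : ℝ} (hU : ∀ x ∈ U, ∀ y ∈ U, dist x y ≤ d) (n : ℕ)
    (hd : d ≤ T.r n) : (T.A U n).card ≤ 2 ^ n := by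
  classical
  induction n with
  | zero =>
    rw [pow_zero]
    refine (Finset.card_filter_le _ _).trans ?_
    rw [N_zero]; simp
  | succ n ih =>
    have h1 := T.r_le n
    have h2 := T.r_pos (n + 1)
    have h3 := T.r_pos n
    have h4 := T.k_pos' n
    have h5 := T.r_succ n
    have := T.card_A_succ (q := 0) (n := n) hU (by
      rw [div_lt_iff₀ (by positivity)]
      have : (d + 2 * T.r (n + 1)) * T.k n ≤ (3 * T.r (n + 1)) * T.k n := by
        apply mul_le_mul_of_nonneg_right _ h4.le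
        linarith
      push_cast
      nlinarith)
    have ih' := ih (by linarith)
    rw [pow_succ]
    omega

lemma D_meas (hf : Continuous f) (n i : ℕ) : MeasurableSet (T.D n i) :=
  (isClosed_closedBall.preimage (hf.iterate i)).measurableSet

lemma D_closed (hf : Continuous f) (n i : ℕ) : IsClosed (T.D n i) :=
  isClosed_closedBall.preimage (hf.iterate i)

lemma E_closed (hf : Continuous f) (n : ℕ) : IsClosed (T.E n) := by
  rw [T.E_eq]
  exact Set.Finite.isClosed_biUnion (Finset.finite_toSet _) fun i _ => T.D_closed hf n i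

lemma K_closed (hf : Continuous f) : IsClosed T.K := isClosed_iInter fun n => T.E_closed hf n

lemma K_sub : T.K ⊆ T.B 0 := by
  rw [← T.E_zero]; exact iInter_subset _ 0

lemma K_compact (hf : Continuous f) : IsCompact T.K :=
  (isCompact_closedBall (T.c 0) (T.r 0)).of_isClosed_subset (T.K_closed hf) T.K_sub

lemma K_nonempty : T.K.Nonempty := by
  have h : (⋂ n, T.B n).Nonempty :=
    IsCompact.nonempty_iInter_of_sequence_nonempty_isCompact_isClosed T.B T.B_sub
      (fun n => ⟨T.c n, mem_closedBall_self (T.r_pos n).le⟩) (isCompact_closedBall _ _)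
      (fun n => isClosed_closedBall)
  obtain ⟨z, hz⟩ := h
  refine ⟨z, mem_iInter.2 fun n => ⟨0, ?_⟩⟩
  exact mem_iInter.1 hz n

lemma meas_D (ν : Measure ℂ) (_hf : Continuous f) (hν : MeasurePreserving f ν ν) (n i : ℕ) :
    ν (T.D n i) = ν (T.B n) :=
  (hν.iterate i).measure_preimage (isClosed_closedBall.measurableSet.nullMeasurableSet)

lemma meas_E (ν : Measure ℂ) (hf : Continuous f) (hν : MeasurePreserving f ν ν) (n : ℕ) :
    ν (T.E n) = T.N n * ν (T.B n) := by
  rw [T.E_eq, measure_biUnion_finset]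
  · rw [Finset.sum_congr rfl fun i _ => T.meas_D ν hf hν n i]
    simp
  · intro i hi i' hi' hne
    exact T.D_disjoint (Finset.mem_range.1 (Finset.mem_coe.1 hi))
      (Finset.mem_range.1 (Finset.mem_coe.1 hi')) hne
  · exact fun i _ => T.D_meas hf n i

lemma meas_B (ν : Measure ℂ) [IsProbabilityMeasure ν] (hf : Continuous f)
    (hν : MeasurePreserving f ν ν) (hK : ν (T.K)ᶜ = 0) (n : ℕ) : ν (T.B n) = (T.N n : ℝ≥0∞)⁻¹ := by
  have hE : ν (T.E n) = 1 := by
    rw [← prob_compl_eq_zero_iff (T.E_closed hf n).measurableSet]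
    exact measure_mono_null (compl_subset_compl.2 (iInter_subset _ n)) hK
  rw [T.meas_E ν hf hν n] at hE
  have hN : (T.N n : ℝ≥0∞) ≠ 0 := by exact_mod_cast (T.N_pos n).ne'
  rw [← ENNReal.eq_inv_of_mul_eq_one_left]
  rwa [mul_comm] at hE

lemma meas_le (ν : Measure ℂ) [IsProbabilityMeasure ν] (hf : Continuous f)
    (hν : MeasurePreserving f ν ν) (hK : ν (T.K)ᶜ = 0) (n : ℕ) (U : Set ℂ) :
    ν U ≤ (T.A U n).card * (T.N n : ℝ≥0∞)⁻¹ := by
  have h : U ⊆ (⋃ i ∈ T.A U n, T.D n i) ∪ (T.K)ᶜ := by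
    intro z hz
    by_cases hzK : z ∈ T.K
    · left
      have := mem_iInter.1 hzK n
      rw [T.E_eq] at this
      simp only [mem_iUnion, Finset.mem_range, exists_prop] at this ⊢
      obtain ⟨i, hi, hz2⟩ := this
      exact ⟨i, T.mem_A.2 ⟨hi, z, hz2, hz⟩, hz2⟩
    · right; exact hzK
  refine (measure_mono h).trans ((measure_union_le _ _).trans ?_)
  rw [hK, add_zero]
  refine (measure_biUnion_finset_le _ _).trans ?_
  rw [Finset.sum_congr rfl fun i _ => (T.meas_D ν hf hν n i).trans (T.meas_B ν hf hν hK n)]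
  simp

end Tower

end Pool.Agent.R191.Odo
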