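import Pool.Agent.R191.Odo.Count

/-!
# Towers of rotations: dimension of the invariant Cantor set and of its invariant measure
-/

set_option autoImplicit false

open Set Filter Topology MeasureTheory Function Metric
open scoped ENNReal NNReal

namespace Pool.Agent.R191.Odo

namespace Tower

variable {f : ℂ → ℂ} (T : Tower f)

/-- Numerical form of the parameters of a tower. -/
structure Num (j : ℕ) (ρ e : ℕ → ℕ) : Prop where
  hj : 1 ≤ j
  hr : ∀ n, T.r n = (1 / 2 : ℝ) ^ ρ n
  hk : ∀ n, T.k n = 2 ^ (j * e n)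
  hρ : ∀ n, ρ (n + 1) = ρ n + (j + 1) * e n + 3
  he : ∀ n, 4 ≤ e n

/-- The lower dimension bound. -/
noncomputable def tt (j : ℕ) : ℝ := ((j : ℝ) - 1) / (j + 1)

/-- The upper dimension bound. -/
noncomputable def ss (j : ℕ) : ℝ := (j : ℝ) / (j + 1)

lemma tt_nonneg {j : ℕ} (hj : 1 ≤ j) : 0 ≤ tt j := by
  have : (1 : ℝ) ≤ j := by exact_mod_cast hj
  unfold tt
  apply div_nonneg <;> linarith

lemma tt_le (j : ℕ) : tt j ≤ 1 := by
  unfold tt
  rw [div_le_one (by positivity)]
  linarith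

lemma ss_nonneg (j : ℕ) : 0 ≤ ss j := by unfold ss; positivity

lemma ss_lt (j : ℕ) : ss j < 1 := by
  unfold ss
  rw [div_lt_one (by positivity)]
  linarith

variable {T} {j : ℕ} {ρ e : ℕ → ℕ} (h : T.Num j ρ e)

/-- The exponent of `N n`. -/
def nu (j : ℕ) (e : ℕ → ℕ) (n : ℕ) : ℕ := ∑ i ∈ Finset.range n, j * e i

include h

lemma Num.N_eq (n : ℕ) : T.N n = 2 ^ nu j e n := by
  unfold N nu
  rw [Finset.prod_congr rfl fun i _ => h.hk i, Finset.prod_pow_eq_pow_sum]

lemma Num.lin (n : ℕ) : (j + 1) * nu j e n + j * (ρ 0 + 3 * n) = j * ρ n := by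
  induction n with
  | zero => simp [nu]
  | succ n ih =>
    have : nu j e (n + 1) = nu j e n + j * e n := Finset.sum_range_succ _ _
    rw [this, h.hρ]
    nlinarith

lemma Num.rho_ge (n : ℕ) : ρ 0 + 4 * (j + 1) * n ≤ ρ n := by
  induction n with
  | zero => simp
  | succ n ih =>
    rw [h.hρ]
    have := h.he n
    nlinarith

lemma Num.r_rpow (n : ℕ) (t : ℝ) : T.r n ^ t = (2 : ℝ) ^ (-(ρ n : ℝ) * t) := by
  rw [h.hr, Real.rpow_mul (by norm_num), Real.rpow_neg (by norm_num), Real.rpow_natCast, one_div,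
    inv_pow]

lemma Num.N_rpow (n : ℕ) : ((T.N n : ℝ))⁻¹ = (2 : ℝ) ^ (-(nu j e n : ℝ)) := by
  rw [h.N_eq, Real.rpow_neg (by norm_num), Real.rpow_natCast]
  push_cast
  rfl

lemma Num.lin' (n : ℕ) : ((j : ℝ) + 1) * nu j e n + j * (ρ 0 + 3 * n) = j * ρ n := by
  exact_mod_cast h.lin n

lemma Num.key (n : ℕ) : (2 : ℝ) ^ n * ((T.N n : ℝ))⁻¹ ≤ 2 ^ ρ 0 * T.r n ^ tt j := by
  rw [h.r_rpow, h.N_rpow, ← Real.rpow_natCast, ← Real.rpow_natCast, ← Real.rpow_add (by norm_num),
    ← Real.rpow_add (by norm_num)]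
  apply Real.rpow_le_rpow_of_exponent_le (by norm_num)
  have h1 := h.lin' n
  have h2 : (ρ 0 : ℝ) + 4 * (j + 1) * n ≤ ρ n := by exact_mod_cast h.rho_ge n
  have hj : (1 : ℝ) ≤ j := by exact_mod_cast h.hj
  have hj1 : (0 : ℝ) < (j : ℝ) + 1 := by linarith
  have hn : (0 : ℝ) ≤ n := Nat.cast_nonneg n
  rw [← sub_nonneg]
  have e1 : (ρ 0 : ℝ) + -(ρ n : ℝ) * tt j - (n + -(nu j e n : ℝ)) =
      ((ρ 0 : ℝ) * (j + 1) - ρ n * (j - 1) - n * (j + 1) + (j + 1) * nu j e n) / (j + 1) := by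
    unfold tt
    field_simp
    ring
  rw [e1]
  apply div_nonneg _ hj1.le
  have h3 : ((j : ℝ) + 1) * nu j e n = j * ρ n - j * (ρ 0 + 3 * n) := by linarith
  rw [h3]
  nlinarith

/-- The mass of a set of small diameter. -/
lemma Num.mass (ν : Measure ℂ) [IsProbabilityMeasure ν] (hf : Continuous f)
    (hν : MeasurePreserving f ν ν) (hK : ν (T.K)ᶜ = 0) {U : Set ℂ} {d : ℝ} (hd0 : 0 < d)
    (hd : d < T.r 0) (hU : ∀ x ∈ U, ∀ y ∈ U, dist x y ≤ d) :
    ν U ≤ ENNReal.ofReal (2 ^ (ρ 0 + 2) * d ^ tt j) := by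
  classical
  have hlim : ∃ n, T.r (n + 1) ≤ d := by
    have : Tendsto (fun n : ℕ => (1 / 2 : ℝ) ^ n) atTop (𝓝 0) :=
      tendsto_pow_atTop_nhds_zero_of_lt_one (by norm_num) (by norm_num)
    obtain ⟨n, hn⟩ := (this.eventually (gt_mem_nhds hd0)).exists
    refine ⟨n, ?_⟩
    rw [h.hr]
    refine le_trans ?_ hn.le
    apply pow_le_pow_of_le_one (by norm_num) (by norm_num)
    have := h.rho_ge (n + 1)
    nlinarith
  obtain ⟨n, hn, hmin⟩ := (⟨Nat.find hlim, Nat.find_spec hlim, fun m hm => Nat.find_min hlim hm⟩ :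
    ∃ n, T.r (n + 1) ≤ d ∧ ∀ m < n, ¬ T.r (m + 1) ≤ d)
  have hdn : d < T.r n := by
    rcases n with _ | n
    · exact hd
    · exact not_le.1 (hmin n (by omega))
  have hr := T.r_pos n
  have hr1 := T.r_pos (n + 1)
  have hk := T.k_pos' n
  set q : ℕ := ⌊3 * d * T.k n / (2 * T.r n)⌋₊
  have hq : 3 * d * T.k n / (2 * T.r n) < q + 1 := Nat.lt_floor_add_one _
  have hq' : (q : ℝ) ≤ 3 * d * T.k n / (2 * T.r n) := Nat.floor_le (by positivity)
  have h1 := T.card_A_le hU n hdn.le
  have h2 := T.card_A_succ (q := q) (n := n) hU (by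
    refine lt_of_le_of_lt ?_ hq
    apply div_le_div_of_nonneg_right _ (by positivity)
    apply mul_le_mul_of_nonneg_right _ hk.le
    linarith)
  have h3 : ((T.A U (n + 1)).card : ℝ) ≤ (3 * d * T.k n / T.r n + 2) * 2 ^ n := by
    have h4 : ((T.A U (n + 1)).card : ℝ) ≤ 2 * (q + 1) * (T.A U n).card := by exact_mod_cast h2
    have h5 : ((T.A U n).card : ℝ) ≤ 2 ^ n := by exact_mod_cast h1
    refine h4.trans ?_
    have h6 : 2 * ((q : ℝ) + 1) ≤ 3 * d * T.k n / T.r n + 2 := by
      have : 3 * d * T.k n / T.r n = 2 * (3 * d * T.k n / (2 * T.r n)) := by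
        field_simp
      rw [this]; linarith
    exact mul_le_mul h6 h5 (by positivity) (by positivity)
  have hN := T.N_pos (n + 1)
  have hN' : (0 : ℝ) < T.N (n + 1) := by exact_mod_cast hN
  have hN0 : (0 : ℝ) < T.N n := by exact_mod_cast T.N_pos n
  refine (T.meas_le ν hf hν hK (n + 1) U).trans ?_
  have e1 : ((T.A U (n + 1)).card : ℝ≥0∞) * (T.N (n + 1) : ℝ≥0∞)⁻¹ =
      ENNReal.ofReal ((T.A U (n + 1)).card * ((T.N (n + 1) : ℝ))⁻¹) := by
    rw [ENNReal.ofReal_mul (by positivity), ENNReal.ofReal_natCast, ENNReal.ofReal_inv_of_pos hN',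
      ENNReal.ofReal_natCast]
  rw [e1]
  apply ENNReal.ofReal_le_ofReal
  have hNk : (T.N (n + 1) : ℝ) = T.N n * T.k n := by exact_mod_cast T.N_succ n
  have key0 := h.key n
  have key1 := h.key (n + 1)
  have ht := tt_nonneg h.hj
  have ht1 := tt_le j
  have hdr : d / T.r n ≤ (d / T.r n) ^ tt j := by
    have h0 : 0 < d / T.r n := by positivity
    have h1 : d / T.r n ≤ 1 := by rw [div_le_one hr]; exact hdn.le
    calc d / T.r n = (d / T.r n) ^ (1 : ℝ) := (Real.rpow_one _).symm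
      _ ≤ _ := Real.rpow_le_rpow_of_exponent_ge h0 h1 ht1
  have hdr2 : (d / T.r n) ^ tt j * T.r n ^ tt j = d ^ tt j := by
    rw [← Real.mul_rpow (by positivity) hr.le, div_mul_cancel₀ _ hr.ne']
  have hr1d : T.r (n + 1) ^ tt j ≤ d ^ tt j := Real.rpow_le_rpow hr1.le hn ht
  calc ((T.A U (n + 1)).card : ℝ) * ((T.N (n + 1) : ℝ))⁻¹
      ≤ ((3 * d * T.k n / T.r n + 2) * 2 ^ n) * ((T.N (n + 1) : ℝ))⁻¹ := by
        gcongr
    _ = 3 * (d / T.r n) * (2 ^ n * ((T.N n : ℝ))⁻¹) + 2 ^ (n + 1) * ((T.N (n + 1) : ℝ))⁻¹ := by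
        rw [hNk]
        field_simp
        ring
    _ ≤ 3 * ((d / T.r n) ^ tt j) * (2 ^ ρ 0 * T.r n ^ tt j) + 2 ^ ρ 0 * T.r (n + 1) ^ tt j := by
        gcongr
    _ = 3 * 2 ^ ρ 0 * ((d / T.r n) ^ tt j * T.r n ^ tt j) + 2 ^ ρ 0 * T.r (n + 1) ^ tt j := by ring
    _ ≤ 3 * 2 ^ ρ 0 * d ^ tt j + 2 ^ ρ 0 * d ^ tt j := by
        rw [hdr2]
        gcongr
    _ = 2 ^ (ρ 0 + 2) * d ^ tt j := by ring

/-- Every set of positive mass has dimension at least `(j - 1) / (j + 1)`. -/
lemma Num.le_dimH (ν : Measure ℂ) [IsProbabilityMeasure ν] (hf : Continuous f)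
    (hν : MeasurePreserving f ν ν) (hK : ν (T.K)ᶜ = 0) {Z : Set ℂ} (hZ : ν Z ≠ 0) :
    ENNReal.ofReal (tt j) ≤ dimH Z := by
  have ht := tt_nonneg h.hj
  set C : ℝ := 2 ^ (ρ 0 + 2) with hC
  have hC0 : 0 < C := by positivity
  have hr := T.r_pos 0
  have hle : (ENNReal.ofReal C)⁻¹ • ν ≤ μH[tt j] := by
    apply Measure.le_hausdorffMeasure _ _ (ENNReal.ofReal (T.r 0 / 2))
      (ENNReal.ofReal_pos.2 (by positivity))
    intro U hU
    have hne : ediam U ≠ ⊤ := ne_top_of_le_ne_top ENNReal.ofReal_ne_top hU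
    set D := (ediam U).toReal with hD
    have hD0 : 0 ≤ D := ENNReal.toReal_nonneg
    have hDr : D ≤ T.r 0 / 2 := ENNReal.toReal_le_of_le_ofReal (by positivity) hU
    have heD : ediam U = ENNReal.ofReal D := (ENNReal.ofReal_toReal hne).symm
    have hb : ∀ d : ℝ, D < d → d < T.r 0 → ν U ≤ ENNReal.ofReal (C * d ^ tt j) := by
      intro d hd hdr
      apply h.mass ν hf hν hK (lt_of_le_of_lt hD0 hd) hdr
      intro x hx y hy
      have := edist_le_ediam_of_mem hx hy
      rw [edist_dist, heD, ENNReal.ofReal_le_ofReal_iff hD0] at this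
      linarith
    have hlim : ν U ≤ ENNReal.ofReal (C * D ^ tt j) := by
      have hcont : ContinuousAt (fun d : ℝ => ENNReal.ofReal (C * d ^ tt j)) D :=
        ENNReal.continuous_ofReal.continuousAt.comp
          (continuousAt_const.mul (Real.continuousAt_rpow_const _ _ (Or.inr ht)))
      have : Tendsto (fun d : ℝ => ENNReal.ofReal (C * d ^ tt j)) (𝓝[>] D)
          (𝓝 (ENNReal.ofReal (C * D ^ tt j))) := hcont.mono_left nhdsWithin_le_nhds
      refine ge_of_tendsto this ?_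
      have h1 : ∀ᶠ d in 𝓝[>] D, d < T.r 0 :=
        nhdsWithin_le_nhds (Iio_mem_nhds (by linarith))
      filter_upwards [h1, self_mem_nhdsWithin] with d hd1 hd2
      exact hb d hd2 hd1
    rw [Measure.smul_apply, smul_eq_mul, heD, ENNReal.ofReal_rpow_of_nonneg hD0 ht]
    calc (ENNReal.ofReal C)⁻¹ * ν U ≤ (ENNReal.ofReal C)⁻¹ * ENNReal.ofReal (C * D ^ tt j) := by
          gcongr
      _ = ENNReal.ofReal (D ^ tt j) := by
        rw [ENNReal.ofReal_mul hC0.le, ← mul_assoc, ENNReal.inv_mul_cancel, one_mul]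
        · exact (ENNReal.ofReal_pos.2 hC0).ne'
        · exact ENNReal.ofReal_ne_top
  have hpos : μH[tt j] Z ≠ 0 := by
    intro h0
    have h1 := hle Z
    rw [h0, Measure.smul_apply, smul_eq_mul] at h1
    have h2 : (ENNReal.ofReal C)⁻¹ * ν Z = 0 := le_antisymm h1 bot_le
    rcases mul_eq_zero.1 h2 with h3 | h3
    · rw [ENNReal.inv_eq_zero] at h3
      exact ENNReal.ofReal_ne_top h3
    · exact hZ h3
  have h5 : μH[((tt j).toNNReal : ℝ)] Z ≠ 0 := by rwa [Real.coe_toNNReal _ ht]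
  exact le_dimH_of_hausdorffMeasure_ne_zero h5

/-- The dimension of the Cantor set is at most `j / (j + 1)`. -/
lemma Num.dimH_le : dimH T.K ≤ ENNReal.ofReal (ss j) := by
  have hs := ss_nonneg j
  have hmain : μH[ss j] T.K ≤ 2 := by
    have hrt : Tendsto (fun n => ENNReal.ofReal (2 * T.r n)) atTop (𝓝 0) := by
      rw [← ENNReal.ofReal_zero]
      apply ENNReal.tendsto_ofReal
      have h1 : Tendsto (fun n : ℕ => 2 * (1 / 2 : ℝ) ^ n) atTop (𝓝 0) := by
        have := (tendsto_pow_atTop_nhds_zero_of_lt_one (by norm_num : (0 : ℝ) ≤ 1 / 2)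
          (by norm_num)).const_mul 2
        simpa using this
      refine squeeze_zero (fun n => by have := T.r_pos n; positivity) (fun n => ?_) h1
      rw [h.hr]
      gcongr ?_ * ?_
      apply pow_le_pow_of_le_one (by norm_num) (by norm_num)
      have := h.rho_ge n
      nlinarith
    have hdiam : ∀ n (i : Fin (T.N n)), ediam (T.D n i) ≤ ENNReal.ofReal (2 * T.r n) := by
      intro n i
      rw [T.D_eq i.2]
      apply ediam_le
      rintro _ ⟨x, hx, rfl⟩ _ ⟨y, hy, rfl⟩
      rw [edist_dist, T.J_iso]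
      apply ENNReal.ofReal_le_ofReal
      have hx' : dist x (T.c n) ≤ T.r n := hx
      have hy' : dist y (T.c n) ≤ T.r n := hy
      have := dist_triangle_right x y (T.c n)
      linarith
    refine (Measure.hausdorffMeasure_le_liminf_sum (ι := fun n => Fin (T.N n)) (ss j) T.K
      (fun n => ENNReal.ofReal (2 * T.r n)) hrt (fun n i => T.D n i)
      (Eventually.of_forall fun n i => hdiam n i) (Eventually.of_forall fun n => ?_)).trans ?_
    · refine (iInter_subset _ n).trans ?_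
      rw [T.E_eq]
      intro z hz
      simp only [mem_iUnion, Finset.mem_range, exists_prop] at hz ⊢
      obtain ⟨i, hi, hz⟩ := hz
      exact ⟨⟨i, hi⟩, hz⟩
    · have hb : ∀ n, ∑ i : Fin (T.N n), ediam (T.D n i) ^ ss j ≤ 2 := by
        intro n
        calc ∑ i : Fin (T.N n), ediam (T.D n i) ^ ss j
            ≤ ∑ i : Fin (T.N n), (ENNReal.ofReal (2 * T.r n)) ^ ss j := by
              apply Finset.sum_le_sum
              intro i _
              exact ENNReal.rpow_le_rpow (hdiam n i) hs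
          _ = (T.N n : ℝ≥0∞) * (ENNReal.ofReal (2 * T.r n)) ^ ss j := by simp
          _ = ENNReal.ofReal (T.N n * (2 * T.r n) ^ ss j) := by
              have := T.r_pos n
              rw [ENNReal.ofReal_mul (p := (T.N n : ℝ)) (by positivity), ENNReal.ofReal_natCast,
                ENNReal.ofReal_rpow_of_nonneg (by positivity) hs]
          _ ≤ ENNReal.ofReal 2 := by
              apply ENNReal.ofReal_le_ofReal
              have hr := T.r_pos n
              rw [Real.mul_rpow (by norm_num) hr.le, h.r_rpow, h.N_eq]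
              push_cast
              rw [← Real.rpow_natCast, ← Real.rpow_add (by norm_num), ← Real.rpow_add (by norm_num)]
              conv_rhs => rw [← Real.rpow_one 2]
              apply Real.rpow_le_rpow_of_exponent_le (by norm_num)
              have h1 := h.lin' n
              have hj1 : (0 : ℝ) < (j : ℝ) + 1 := by positivity
              rw [← sub_nonneg]
              have e1 : 1 - ((nu j e n : ℝ) + (ss j + -(ρ n : ℝ) * ss j)) =
                (1 + (j * ρ n - (j + 1) * nu j e n)) / (j + 1) := by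
                unfold ss
                field_simp
                ring
              rw [e1]
              apply div_nonneg _ hj1.le
              rw [← h1]
              have : (0 : ℝ) ≤ j * (ρ 0 + 3 * n) := by positivity
              linarith
          _ = 2 := by norm_num
      calc liminf (fun n => ∑ i : Fin (T.N n), ediam (T.D n i) ^ ss j) atTop
          ≤ liminf (fun _ : ℕ => (2 : ℝ≥0∞)) atTop := liminf_le_liminf (Eventually.of_forall hb)
        _ = 2 := liminf_const _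
  have h5 : μH[((ss j).toNNReal : ℝ)] T.K ≠ ⊤ := by
    rw [Real.coe_toNNReal _ hs]
    exact ne_top_of_le_ne_top (by norm_num) hmain
  exact dimH_le_of_hausdorffMeasure_ne_top h5

end Tower

end Pool.Agent.R191.Odo
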