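import Mathlib

/-!
# Towers of rotations: combinatorics

A map `f` of the plane is given on a disc `B 0` by an infinite composition of partial rotations.
-/

set_option autoImplicit false

open Set Filter Topology MeasureTheory Function Metric

namespace Pool.Agent.R191.Odo

/-- The rotation with centre `c` and multiplier `w`. -/
noncomputable def rt (c w z : ℂ) : ℂ := c + w * (z - c)

/-- The primitive root of unity `exp (2πi/k)`. -/
noncomputable def om (k : ℕ) : ℂ := Complex.exp (((2 * Real.pi / k : ℝ) : ℂ) * Complex.I)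

/-- The cutoff profile. -/
noncomputable def bet (s : ℝ) : ℝ := Real.smoothTransition (2 * (1 - s))

lemma bet_one {s : ℝ} (h : s ≤ 1 / 2) : bet s = 1 :=
  Real.smoothTransition.one_of_one_le (by linarith)

lemma bet_zero {s : ℝ} (h : 1 ≤ s) : bet s = 0 :=
  Real.smoothTransition.zero_of_nonpos (by linarith)

lemma bet_pos {s : ℝ} (h : s < 1) : 0 < bet s :=
  Real.smoothTransition.pos_of_pos (by linarith)

lemma bet_lt {s : ℝ} (h : 1 / 2 < s) : bet s < 1 :=
  Real.smoothTransition.lt_one_of_lt_one (by linarith)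

lemma bet_nonneg (s : ℝ) : 0 ≤ bet s := Real.smoothTransition.nonneg _

lemma bet_le (s : ℝ) : bet s ≤ 1 := Real.smoothTransition.le_one _

lemma norm_om (k : ℕ) : ‖om k‖ = 1 := Complex.norm_exp_ofReal_mul_I _

lemma om_ne (k : ℕ) : om k ≠ 0 := Complex.exp_ne_zero _

lemma om_pow (k a : ℕ) : om k ^ a = Complex.exp (((a * (2 * Real.pi / k) : ℝ) : ℂ) * Complex.I) := by
  unfold om
  rw [← Complex.exp_nat_mul]
  congr 1
  push_cast
  ring

lemma om_pow_self {k : ℕ} (hk : k ≠ 0) : om k ^ k = 1 := by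
  rw [om_pow]
  have : (k : ℝ) * (2 * Real.pi / k) = 2 * Real.pi := by field_simp
  rw [this]
  push_cast
  exact Complex.exp_two_pi_mul_I

lemma norm_om_pow_sub_one (k a : ℕ) : ‖om k ^ a - 1‖ = 2 * |Real.sin (Real.pi * a / k)| := by
  rw [om_pow, mul_comm, Complex.norm_exp_I_mul_ofReal_sub_one]
  rw [norm_mul, Real.norm_eq_abs, Real.norm_eq_abs, abs_of_pos (by norm_num : (0 : ℝ) < 2)]
  congr 3
  ring

lemma le_norm_om_pow_sub_one {k a : ℕ} (hk : 0 < k) (h : 2 * a ≤ k) :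
    4 * (a : ℝ) / k ≤ ‖om k ^ a - 1‖ := by
  rw [norm_om_pow_sub_one]
  have hk' : (0 : ℝ) < k := by exact_mod_cast hk
  have h' : 2 * (a : ℝ) ≤ k := by exact_mod_cast h
  have hpi := Real.pi_pos
  have h1 : 0 ≤ Real.pi * a / k := by positivity
  have h2 : Real.pi * a / k ≤ Real.pi / 2 := by
    rw [div_le_div_iff₀ hk' (by norm_num)]
    nlinarith
  have h3 := Real.mul_le_sin h1 h2
  have h4 : 2 / Real.pi * (Real.pi * a / k) = 2 * a / k := by field_simp
  rw [h4] at h3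
  calc 4 * (a : ℝ) / k = 2 * (2 * a / k) := by ring
    _ ≤ 2 * Real.sin (Real.pi * a / k) := by linarith
    _ ≤ _ := by
      gcongr
      exact le_abs_self _

lemma norm_om_sub_one_le (k : ℕ) : ‖om k - 1‖ ≤ 7 / k := by
  have := norm_om_pow_sub_one k 1
  rw [pow_one] at this
  rw [this]
  have h1 : |Real.sin (Real.pi * (1 : ℕ) / k)| ≤ |Real.pi * (1 : ℕ) / k| := Real.abs_sin_le_abs
  have h2 : |Real.pi * (1 : ℕ) / k| = Real.pi / k := by
    rw [abs_of_nonneg (by have := Real.pi_pos; positivity)]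
    simp
  have h3 : Real.pi / k ≤ 3.5 / k := by
    gcongr
    exact Real.pi_lt_d2.le.trans (by norm_num)
  calc _ ≤ 2 * (3.5 / k : ℝ) := by linarith
    _ = _ := by ring

lemma le_norm_om_pow_sub_one' {k a : ℕ} (h1 : 1 ≤ a) (h2 : a < k) :
    4 / (k : ℝ) ≤ ‖om k ^ a - 1‖ := by
  have hk : 0 < k := by omega
  have hk' : (0 : ℝ) < k := by exact_mod_cast hk
  rcases le_total (2 * a) k with h | h
  · refine le_trans ?_ (le_norm_om_pow_sub_one hk h)
    gcongr
    have : (1 : ℝ) ≤ a := by exact_mod_cast h1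
    linarith
  · have e : ‖om k ^ a - 1‖ = ‖om k ^ (k - a) - 1‖ := by
      have : om k ^ (k - a) * om k ^ a = 1 := by
        rw [← pow_add, Nat.sub_add_cancel h2.le, om_pow_self hk.ne']
      have e2 : om k ^ (k - a) - 1 = - (om k ^ (k - a) * (om k ^ a - 1)) := by
        rw [mul_sub, this]
        ring
      rw [e2, norm_neg, norm_mul, norm_pow, norm_om, one_pow, one_mul]
    rw [e]
    refine le_trans ?_ (le_norm_om_pow_sub_one hk (by omega))
    gcongr
    have : (1 : ℝ) ≤ ((k - a : ℕ) : ℝ) := by exact_mod_cast (by omega : 1 ≤ k - a)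
    linarith

lemma om_inv_pow_dist {k a b : ℕ} (hk : 0 < k) (hab : a ≤ b) (h : 2 * (b - a) ≤ k) :
    4 * ((b : ℝ) - a) / k ≤ ‖(om k)⁻¹ ^ a - (om k)⁻¹ ^ b‖ := by
  have e : (om k)⁻¹ ^ a - (om k)⁻¹ ^ b = (om k)⁻¹ ^ b * (om k ^ (b - a) - 1) := by
    rw [mul_sub, mul_one, sub_left_inj]
    obtain ⟨d, rfl⟩ := Nat.exists_eq_add_of_le hab
    have : om k ≠ 0 := om_ne k
    rw [Nat.add_sub_cancel_left, pow_add, mul_assoc, inv_pow, inv_pow, inv_mul_cancel₀ (pow_ne_zero _ this),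
      mul_one]
  rw [e, norm_mul, norm_pow, norm_inv, norm_om, inv_one, one_pow, one_mul]
  have := le_norm_om_pow_sub_one hk h
  rw [Nat.cast_sub hab] at this
  exact this

lemma rt_rt (c a b z : ℂ) : rt c a (rt c b z) = rt c (a * b) z := by unfold rt; ring

lemma rt_one (c z : ℂ) : rt c 1 z = z := by unfold rt; ring

lemma rt_sub (c a z : ℂ) : rt c a z - c = a * (z - c) := by unfold rt; ring

lemma dist_rt {c a : ℂ} (ha : ‖a‖ = 1) (z w : ℂ) : dist (rt c a z) (rt c a w) = dist z w := by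
  rw [dist_eq_norm, dist_eq_norm]
  have : rt c a z - rt c a w = a * (z - w) := by unfold rt; ring
  rw [this, norm_mul, ha, one_mul]

/-- The data of a tower of rotations for the map `f` of the plane. -/
structure Tower (f : ℂ → ℂ) where
  c : ℕ → ℂ
  r : ℕ → ℝ
  k : ℕ → ℕ
  g : ℕ → ℂ → ℂ
  r_pos : ∀ n, 0 < r n
  two_le : ∀ n, 2 ≤ k n
  f_inj : Injective f
  g0 : ∀ z ∈ closedBall (c 0) (r 0), f z = g 0 z
  g_bij : ∀ n, Bijective (g n)
  g_out : ∀ n z, r n ≤ ‖z - c n‖ → g n z = z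
  step : ∀ n z, g n z = z + (om (k n) - 1) * (bet (‖z - c n‖ ^ 2 / r n ^ 2) : ℂ) * (z - c n) +
    om (k n) * (g (n + 1) z - z)
  c_succ : ∀ n, c (n + 1) = c n + (r n / 2 : ℝ)
  r_succ : ∀ n, r (n + 1) * k n ≤ r n / 8

namespace Tower

variable {f : ℂ → ℂ} (T : Tower f)

/-- The disc of level `n`. -/
def B (n : ℕ) : Set ℂ := closedBall (T.c n) (T.r n)

/-- The number of discs of level `n`. -/
def N (n : ℕ) : ℕ := ∏ i ∈ Finset.range n, T.k i

lemma N_zero : T.N 0 = 1 := rfl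
lemma N_succ (n : ℕ) : T.N (n + 1) = T.N n * T.k n := Finset.prod_range_succ _ _

lemma N_pos (n : ℕ) : 0 < T.N n := Finset.prod_pos fun i _ => by have := T.two_le i; omega

lemma k_pos (n : ℕ) : 0 < T.k n := by have := T.two_le n; omega

lemma k_pos' (n : ℕ) : (0 : ℝ) < T.k n := by exact_mod_cast T.k_pos n

lemma two_le' (n : ℕ) : (2 : ℝ) ≤ T.k n := by exact_mod_cast T.two_le n

lemma mem_B {n : ℕ} {z : ℂ} : z ∈ T.B n ↔ ‖z - T.c n‖ ≤ T.r n := by
  unfold B; rw [mem_closedBall, dist_eq_norm]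

lemma r_le (n : ℕ) : T.r (n + 1) ≤ T.r n / 16 := by
  have h := T.r_succ n
  have h2 := T.two_le' n
  have := T.r_pos (n + 1)
  nlinarith

lemma norm_c_sub (n : ℕ) : ‖T.c (n + 1) - T.c n‖ = T.r n / 2 := by
  rw [T.c_succ, add_sub_cancel_left, Complex.norm_real, Real.norm_eq_abs,
    abs_of_pos (by have := T.r_pos n; linarith)]

lemma B_inner {n : ℕ} {z : ℂ} (hz : z ∈ T.B (n + 1)) : ‖z - T.c n‖ ≤ 9 / 16 * T.r n := by
  rw [mem_B] at hz
  have h1 := T.norm_c_sub n
  have h2 := T.r_le n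
  have h3 : ‖z - T.c n‖ ≤ ‖z - T.c (n + 1)‖ + ‖T.c (n + 1) - T.c n‖ := by
    have : z - T.c n = (z - T.c (n + 1)) + (T.c (n + 1) - T.c n) := by ring
    rw [this]; exact norm_add_le _ _
  linarith

lemma B_outer {n : ℕ} {z : ℂ} (hz : z ∈ T.B (n + 1)) : 7 / 16 * T.r n ≤ ‖z - T.c n‖ := by
  rw [mem_B] at hz
  have h1 := T.norm_c_sub n
  have h2 := T.r_le n
  have h3 : ‖T.c (n + 1) - T.c n‖ ≤ ‖z - T.c (n + 1)‖ + ‖z - T.c n‖ := by
    have : T.c (n + 1) - T.c n = -(z - T.c (n + 1)) + (z - T.c n) := by ring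
    rw [this]
    refine (norm_add_le _ _).trans ?_
    rw [norm_neg]
  linarith

lemma B_sub (n : ℕ) : T.B (n + 1) ⊆ T.B n := fun z hz => by
  have := T.B_inner hz
  have := T.r_pos n
  rw [mem_B]; linarith

lemma B_anti {m n : ℕ} (h : m ≤ n) : T.B n ⊆ T.B m :=
  antitone_nat_of_succ_le (f := T.B) T.B_sub h

/-- The inner disc, on which the level `n` partial rotation is a rotation. -/
def In (n : ℕ) : Set ℂ := {z | ‖z - T.c n‖ ^ 2 ≤ T.r n ^ 2 / 2}

lemma B_sub_In (n : ℕ) : T.B (n + 1) ⊆ T.In n := fun z hz => by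
  have h := T.B_inner hz
  have := T.r_pos n
  have h0 := norm_nonneg (z - T.c n)
  show ‖z - T.c n‖ ^ 2 ≤ T.r n ^ 2 / 2
  nlinarith

lemma In_sub_B (n : ℕ) : T.In n ⊆ T.B n := fun z hz => by
  have hz' : ‖z - T.c n‖ ^ 2 ≤ T.r n ^ 2 / 2 := hz
  have := T.r_pos n
  have h0 := norm_nonneg (z - T.c n)
  rw [mem_B]
  nlinarith

lemma bet_In {n : ℕ} {z : ℂ} (hz : z ∈ T.In n) : bet (‖z - T.c n‖ ^ 2 / T.r n ^ 2) = 1 := by
  apply bet_one
  have hz' : ‖z - T.c n‖ ^ 2 ≤ T.r n ^ 2 / 2 := hz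
  have := T.r_pos n
  rw [div_le_iff₀ (by positivity)]
  linarith

lemma g_not_B {n : ℕ} {z : ℂ} (hz : z ∉ T.B n) : T.g n z = z := by
  apply T.g_out
  rw [mem_B, not_le] at hz
  exact hz.le

lemma g_mem {n : ℕ} {z : ℂ} (hz : z ∈ T.B n) : T.g n z ∈ T.B n := by
  by_contra h
  have h1 := T.g_not_B h
  have := (T.g_bij n).1 h1
  rw [this] at h
  exact h hz

lemma g_mem_iff {n : ℕ} {z : ℂ} : T.g n z ∈ T.B n ↔ z ∈ T.B n := by
  refine ⟨fun h => ?_, T.g_mem⟩
  by_contra h1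
  rw [T.g_not_B h1] at h
  exact h1 h

lemma g_surj {n : ℕ} {z : ℂ} (hz : z ∈ T.B n) : ∃ w ∈ T.B n, T.g n w = z := by
  obtain ⟨w, hw⟩ := (T.g_bij n).2 z
  refine ⟨w, ?_, hw⟩
  rw [← hw] at hz
  exact T.g_mem_iff.1 hz

lemma g_iter_mem {n : ℕ} {z : ℂ} (hz : z ∈ T.B n) (m : ℕ) : (T.g n)^[m] z ∈ T.B n := by
  induction m with
  | zero => exact hz
  | succ m ih => rw [iterate_succ_apply']; exact T.g_mem ih

lemma g_next {n : ℕ} {z : ℂ} (hz : z ∈ T.B (n + 1)) :
    T.g n z = rt (T.c n) (om (T.k n)) (T.g (n + 1) z) := by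
  rw [T.step, T.bet_In (T.B_sub_In n hz)]
  unfold rt
  push_cast
  ring

lemma g_rot {n : ℕ} {z : ℂ} (hz : z ∈ T.In n) (h2 : z ∉ T.B (n + 1)) :
    T.g n z = rt (T.c n) (om (T.k n)) z := by
  rw [T.step, T.bet_In hz, T.g_not_B h2]
  unfold rt
  push_cast
  ring

lemma rt_In {n : ℕ} {z w : ℂ} (hw : ‖w‖ = 1) : rt (T.c n) w z ∈ T.In n ↔ z ∈ T.In n := by
  show ‖_‖ ^ 2 ≤ _ ↔ ‖_‖ ^ 2 ≤ _
  rw [rt_sub, norm_mul, hw, one_mul]

lemma rt_B {n : ℕ} {z w : ℂ} (hw : ‖w‖ = 1) : rt (T.c n) w z ∈ T.B n ↔ z ∈ T.B n := by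
  rw [mem_B, mem_B, rt_sub, norm_mul, hw, one_mul]

lemma norm_om_inv_pow (k l : ℕ) : ‖(om k)⁻¹ ^ l‖ = 1 := by
  rw [norm_pow, norm_inv, norm_om, inv_one, one_pow]

lemma g_In {n : ℕ} {z : ℂ} (hz : z ∈ T.In n) : T.g n z ∈ T.In n := by
  by_cases h : z ∈ T.B (n + 1)
  · rw [T.g_next h, T.rt_In (norm_om _)]
    exact T.B_sub_In n (T.g_mem h)
  · rw [T.g_rot hz h, T.rt_In (norm_om _)]
    exact hz

/-- The translates of the disc of level `n+1` are disjoint from it. -/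
lemma rt_not_mem {n l : ℕ} {z : ℂ} (hz : z ∈ T.B (n + 1)) (h1 : 1 ≤ l) (h2 : l < T.k n) :
    rt (T.c n) (om (T.k n) ^ l) z ∉ T.B (n + 1) := by
  intro hmem
  have ho := T.B_outer hz
  rw [mem_B] at hz hmem
  have h3 := le_norm_om_pow_sub_one' h1 h2
  have e : rt (T.c n) (om (T.k n) ^ l) z - z = (om (T.k n) ^ l - 1) * (z - T.c n) := by
    unfold rt; ring
  have h4 : ‖rt (T.c n) (om (T.k n) ^ l) z - z‖ ≤ 2 * T.r (n + 1) := by
    have e2 : rt (T.c n) (om (T.k n) ^ l) z - z =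
      (rt (T.c n) (om (T.k n) ^ l) z - T.c (n + 1)) - (z - T.c (n + 1)) := by ring
    rw [e2]
    refine (norm_sub_le _ _).trans ?_
    linarith
  rw [e, norm_mul] at h4
  have hk := T.k_pos' n
  have hr := T.r_succ n
  have hrp := T.r_pos n
  have h5 : 4 / (T.k n : ℝ) * (7 / 16 * T.r n) ≤ 2 * T.r (n + 1) :=
    (mul_le_mul h3 ho (by positivity) (norm_nonneg _)).trans h4
  rw [div_mul_eq_mul_div, div_le_iff₀ hk] at h5
  linarith

lemma om_inv_pow {k l : ℕ} (hk : 0 < k) (hl : l ≤ k) : (om k)⁻¹ ^ l = om k ^ (k - l) := by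
  have h : om k ^ (k - l) * om k ^ l = 1 := by
    rw [← pow_add, Nat.sub_add_cancel hl, om_pow_self hk.ne']
  rw [inv_pow]
  exact inv_eq_of_mul_eq_one_left h

lemma rt_inv_not_mem {n l : ℕ} {z : ℂ} (hz : z ∈ T.B (n + 1)) (h1 : 1 ≤ l) (h2 : l < T.k n) :
    rt (T.c n) ((om (T.k n))⁻¹ ^ l) z ∉ T.B (n + 1) := by
  rw [om_inv_pow (T.k_pos n) h2.le]
  exact T.rt_not_mem hz (by omega) (by omega)

/-- Backward rotations are undone by `g n`. -/
lemma g_iter_rt {n l : ℕ} {z : ℂ} (hz : z ∈ T.B (n + 1)) (h2 : l < T.k n) :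
    (T.g n)^[l] (rt (T.c n) ((om (T.k n))⁻¹ ^ l) z) = z := by
  induction l with
  | zero => rw [pow_zero, rt_one]; rfl
  | succ l ih =>
    rw [iterate_succ_apply, T.g_rot _ (T.rt_inv_not_mem hz (by omega) h2), rt_rt, pow_succ',
      ← mul_assoc, mul_inv_cancel₀ (om_ne _), one_mul, ih (by omega)]
    rw [T.rt_In (norm_om_inv_pow _ _)]
    exact T.B_sub_In n hz

lemma g_iter_k {n : ℕ} {z : ℂ} (hz : z ∈ T.B (n + 1)) : (T.g n)^[T.k n] z = T.g (n + 1) z := by
  have hk := T.k_pos n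
  obtain ⟨l, hl⟩ : ∃ l, T.k n = l + 1 := ⟨T.k n - 1, by omega⟩
  rw [hl, iterate_succ_apply, T.g_next hz]
  have e : om (T.k n) = (om (T.k n))⁻¹ ^ l := by
    rw [om_inv_pow hk (by omega)]
    have : T.k n - l = 1 := by omega
    rw [this, pow_one]
  have := T.g_iter_rt (n := n) (l := l) (T.g_mem hz) (by omega)
  rw [← e] at this
  exact this

/-- Intermediate iterates leave the disc of level `n+1`. -/
lemma g_iter_not_mem {n l : ℕ} {z : ℂ} (hz : z ∈ T.B (n + 1)) (h1 : 1 ≤ l) (h2 : l < T.k n) :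
    (T.g n)^[l] z ∉ T.B (n + 1) := by
  have key : ∀ l, 1 ≤ l → l < T.k n →
      (T.g n)^[l] z = rt (T.c n) (om (T.k n) ^ l) (T.g (n + 1) z) := by
    intro l
    induction l with
    | zero => intro h; omega
    | succ l ih =>
      intro _ hl
      rcases Nat.eq_zero_or_pos l with rfl | hpos
      · rw [iterate_one, T.g_next hz, zero_add, pow_one]
      · rw [iterate_succ_apply', ih hpos (by omega), T.g_rot _ (T.rt_not_mem (T.g_mem hz) hpos (by omega)),
          rt_rt, pow_succ']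
        rw [T.rt_In (by rw [norm_pow, norm_om, one_pow])]
        exact T.B_sub_In n (T.g_mem hz)
  rw [key l h1 h2]
  exact T.rt_not_mem (T.g_mem hz) h1 h2

lemma f_iter (n : ℕ) : ∀ z ∈ T.B n, f^[T.N n] z = T.g n z := by
  induction n with
  | zero => intro z hz; rw [N_zero, iterate_one]; exact T.g0 z hz
  | succ n ih =>
    intro z hz
    rw [N_succ, iterate_mul]
    have : ∀ m, (f^[T.N n])^[m] z = (T.g n)^[m] z := by
      intro m
      induction m with
      | zero => rfl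
      | succ m ihm => rw [iterate_succ_apply', iterate_succ_apply', ihm,
          ih _ (T.g_iter_mem (T.B_sub n hz) m)]
    rw [this, T.g_iter_k hz]

lemma f_iter_mul {n : ℕ} {z : ℂ} (hz : z ∈ T.B n) (m : ℕ) :
    f^[T.N n * m] z = (T.g n)^[m] z := by
  rw [iterate_mul]
  induction m with
  | zero => rfl
  | succ m ihm => rw [iterate_succ_apply', iterate_succ_apply', ihm,
      T.f_iter n _ (T.g_iter_mem hz m)]

/-- Times of return to the disc of level `n` are multiples of `N n`. -/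
lemma dvd_of_return (n : ℕ) : ∀ l z, z ∈ T.B n → f^[l] z ∈ T.B n → T.N n ∣ l := by
  induction n with
  | zero => intro l z _ _; rw [N_zero]; exact one_dvd l
  | succ n ih =>
    intro l z hz hl
    obtain ⟨m, rfl⟩ := ih l z (T.B_sub n hz) (T.B_sub n hl)
    rw [T.f_iter_mul (T.B_sub n hz)] at hl
    have hm := Nat.div_add_mod m (T.k n)
    have hlt := Nat.mod_lt m (T.k_pos n)
    set q := m / T.k n
    set t := m % T.k n
    have e : (T.g n)^[m] z = (T.g n)^[t] ((T.g (n + 1))^[q] z) := by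
      rw [← hm, add_comm, iterate_add_apply]
      congr 1
      rw [iterate_mul]
      clear_value q
      clear hm
      induction q with
      | zero => rfl
      | succ q ihq => rw [iterate_succ_apply', iterate_succ_apply', ihq,
          T.g_iter_k (T.g_iter_mem hz q)]
    rw [e] at hl
    have ht : t = 0 := by
      by_contra h
      exact T.g_iter_not_mem (T.g_iter_mem hz q) (by omega) hlt hl
    rw [N_succ]
    rw [ht, add_zero] at hm
    exact ⟨q, by rw [← hm, mul_assoc]⟩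

lemma f_iter_mem_iff {n : ℕ} {z : ℂ} : f^[T.N n] z ∈ T.B n ↔ z ∈ T.B n := by
  constructor
  · intro h
    obtain ⟨w, hw, hw2⟩ := T.g_surj h
    rw [← T.f_iter n w hw] at hw2
    have := T.f_inj.iterate _ hw2
    rwa [← this]
  · intro h
    rw [T.f_iter n z h]
    exact T.g_mem h

/-- The (inverse) isometries onto the discs of level `n`. -/
noncomputable def J : ℕ → ℕ → ℂ → ℂ
  | 0, _ => id
  | n + 1, i => J n (i % T.N n) ∘ rt (T.c n) ((om (T.k n))⁻¹ ^ (i / T.N n))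

lemma J_spec (n : ℕ) : ∀ i < T.N n, ∀ z ∈ T.B n, f^[i] (T.J n i z) = z := by
  induction n with
  | zero =>
    intro i hi z _
    rw [N_zero] at hi
    obtain rfl : i = 0 := by omega
    rfl
  | succ n ih =>
    intro i hi z hz
    rw [N_succ] at hi
    have hN := T.N_pos n
    have hm : i / T.N n < T.k n := Nat.div_lt_of_lt_mul hi
    have hi0 := Nat.mod_lt i hN
    show f^[i] (T.J n (i % T.N n) (rt (T.c n) ((om (T.k n))⁻¹ ^ (i / T.N n)) z)) = z
    set w := rt (T.c n) ((om (T.k n))⁻¹ ^ (i / T.N n)) z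
    have hw : w ∈ T.B n := (T.rt_B (norm_om_inv_pow _ _)).2 (T.B_sub n hz)
    have e : f^[i] (T.J n (i % T.N n) w) = f^[T.N n * (i / T.N n)] (f^[i % T.N n] (T.J n (i % T.N n) w)) := by
      rw [← iterate_add_apply, Nat.div_add_mod]
    rw [e, ih _ hi0 _ hw, T.f_iter_mul hw, T.g_iter_rt hz hm]

lemma J_iso (n i : ℕ) (z w : ℂ) : dist (T.J n i z) (T.J n i w) = dist z w := by
  induction n generalizing i z w with
  | zero => rfl
  | succ n ih =>
    show dist (T.J n _ _) (T.J n _ _) = _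
    rw [ih, dist_rt (norm_om_inv_pow _ _)]

/-- The discs of level `n`. -/
def D (n i : ℕ) : Set ℂ := {z | f^[i] z ∈ T.B n}

lemma D_eq {n i : ℕ} (hi : i < T.N n) : T.D n i = T.J n i '' T.B n := by
  ext z
  constructor
  · intro hz
    refine ⟨f^[i] z, hz, ?_⟩
    have := T.J_spec n i hi _ hz
    exact T.f_inj.iterate _ this
  · rintro ⟨w, hw, rfl⟩
    show f^[i] (T.J n i w) ∈ T.B n
    rw [T.J_spec n i hi w hw]
    exact hw

lemma D_disjoint {n i i' : ℕ} (hi : i < T.N n) (hi' : i' < T.N n) (hne : i ≠ i') :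
    Disjoint (T.D n i) (T.D n i') := by
  wlog h : i < i' generalizing i i'
  · exact (this hi' hi hne.symm (by omega)).symm
  rw [Set.disjoint_left]
  intro z hz hz'
  have e : f^[i'] z = f^[i' - i] (f^[i] z) := by
    rw [← iterate_add_apply]; congr 1; omega
  have hz2 : f^[i'] z ∈ T.B n := hz'
  rw [e] at hz2
  have := T.dvd_of_return n (i' - i) _ hz hz2
  have := Nat.le_of_dvd (by omega) this
  omega

/-- The points which eventually enter the disc of level `n`. -/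
def E (n : ℕ) : Set ℂ := {z | ∃ i, f^[i] z ∈ T.B n}

lemma E_eq (n : ℕ) : T.E n = ⋃ i ∈ Finset.range (T.N n), T.D n i := by
  ext z
  simp only [mem_iUnion, Finset.mem_range, exists_prop]
  constructor
  · rintro ⟨i, hi⟩
    induction i using Nat.strong_induction_on with
    | _ i ih =>
      by_cases h : i < T.N n
      · exact ⟨i, h, hi⟩
      · push Not at h
        have hN := T.N_pos n
        refine ih (i - T.N n) (by omega) ?_
        rw [← T.f_iter_mem_iff, ← iterate_add_apply]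
        have : T.N n + (i - T.N n) = i := by omega
        rwa [this]
  · rintro ⟨i, _, hz⟩
    exact ⟨i, hz⟩

lemma f_mem_E {n : ℕ} {z : ℂ} : f z ∈ T.E n ↔ z ∈ T.E n := by
  constructor
  · rintro ⟨i, hi⟩
    exact ⟨i + 1, by rwa [iterate_succ_apply]⟩
  · rintro ⟨i, hi⟩
    rcases i with _ | i
    · have hN := T.N_pos n
      have h2 := (T.f_iter_mem_iff).2 (show z ∈ T.B n from hi)
      refine ⟨T.N n - 1, ?_⟩
      rw [← iterate_succ_apply]
      have : (T.N n - 1).succ = T.N n := by omega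
      rwa [this]
    · exact ⟨i, by rwa [iterate_succ_apply] at hi⟩

lemma E_anti (n : ℕ) : T.E (n + 1) ⊆ T.E n := fun _ ⟨i, hi⟩ => ⟨i, T.B_sub n hi⟩

lemma E_zero : T.E 0 = T.B 0 := by
  rw [E_eq, N_zero]
  simp [D]

/-- The invariant Cantor set. -/
def K : Set ℂ := ⋂ n, T.E n

lemma f_mem_K {z : ℂ} : f z ∈ T.K ↔ z ∈ T.K := by
  unfold K
  rw [mem_iInter, mem_iInter]
  exact forall_congr' fun n => T.f_mem_E

end Tower

end Pool.Agent.R191.Odo
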